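import Pool.Agent.PCS.Stmts

/-!
Squad PCS, row CHD (helper64): a good ultrafilter has a good child.
-/

open scoped Pointwise

namespace Pool.Agent.PCS.H64

open Pool.Agent.PCS Pool.Agent.H50.CIG

theorem chd (hLEV : LevStmt) (hITP : ItpStmt) (hFIX : FixStmt) (hINT : IntStmt) : ChdStmt := by
  intro Γ V _ _ T S rk R K q hset U n hgood
  obtain ⟨hN, hfin⟩ := hgood
  obtain ⟨H, hHfi, hH⟩ := hFIX Γ V S hset.gen (T.d * n)
  obtain ⟨-, -, -, -, hconj, hdown⟩ := hITP Γ V T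
  have horb : ∀ v : V, (MulAction.orbit Γ v).Finite := fun v => ((hLEV Γ V T).2 v).1
  have hch : ∀ i v, N Γ v = n → n ≤ N Γ (T.child i v) ∧ N Γ (T.child i v) ≤ T.d * n := by
    intro i v hv
    have h1 := ((hLEV Γ V T).2 (T.child i v)).2.2 (by rw [T.lv_child]; exact Nat.succ_pos _)
    rw [T.par_child, hv] at h1
    exact h1
  have hni : ∀ i, ∃ m, (n ≤ m ∧ m ≤ T.d * n) ∧ ∀ᶠ v in (U : Filter V), N Γ (T.child i v) = m := by
    intro i
    have h1 : ∀ᶠ v in (U : Filter V), ∃ m ∈ Set.Icc n (T.d * n), N Γ (T.child i v) = m := by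
      filter_upwards [hN] with v hv
      exact ⟨_, hch i v hv, rfl⟩
    obtain ⟨m, hm, hm'⟩ := (Ultrafilter.eventually_exists_mem_iff (Set.finite_Icc n (T.d * n))).1 h1
    exact ⟨m, hm, hm'⟩
  by_contra hcon
  have hinf : ∀ i : Fin T.d, (KU T (U.map (T.child i)) : Set Γ).Infinite := by
    intro i hfi
    obtain ⟨m, hm, hm'⟩ := hni i
    exact hcon ⟨i, m, i.2, ⟨hm', hfi⟩, hm.1, hm.2⟩
  have hnorm : ∀ i : Fin T.d, ∀ h ∈ H, ∀ k ∈ KU T (U.map (T.child i)),
      h * k * h⁻¹ ∈ KU T (U.map (T.child i)) := by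
    intro i h hh k hk
    have hk' : ∀ᶠ v in (U : Filter V), k ∈ KK T (T.child i v) := hk
    show ∀ᶠ v in (U : Filter V), h * k * h⁻¹ ∈ KK T (T.child i v)
    filter_upwards [hN, hk'] with v hv hkv
    exact hconj h k _ (hH _ (horb _) (hch i v hv).2 h hh) hkv
  have h2 := hINT Γ hset.inf hset.nci H hHfi (Fin T.d) (fun i => KU T (U.map (T.child i)))
    hinf hnorm
  refine h2 (hfin.subset ?_)
  rintro g ⟨-, hg⟩
  have h3 : ∀ᶠ v in (U : Filter V), ∀ i : Fin T.d, g ∈ KK T (T.child i v) := by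
    rw [Filter.eventually_all]
    intro i
    exact hg i
  show ∀ᶠ v in (U : Filter V), g ∈ KK T v
  filter_upwards [h3] with v hv
  exact hdown g v fun i hi => hv ⟨i, hi⟩

end Pool.Agent.PCS.H64
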